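import Mathlib

namespace Pool.Agent.Results.MP_5de61a_co.Bisection

open Finset
open Classical

variable {n : ℕ}

/-- number of edges between `S` and its complement -/
noncomputable def cut (G : SimpleGraph (Fin n)) (S : Finset (Fin n)) : ℕ :=
  ((S ×ˢ Sᶜ).filter (fun p => G.Adj p.1 p.2)).card

/-- `b(G)`: the largest size of a bisection -/
noncomputable def b (G : SimpleGraph (Fin n)) : ℕ :=
  (univ.filter (fun S : Finset (Fin n) => S.card ≤ Sᶜ.card ∧ Sᶜ.card ≤ S.card + 1)).sup (cut G)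

/-- `b_δ(m)`: the least `b(G)` over graphs with `m` edges and minimum degree at least `δ` -/
noncomputable def bmin (δ m : ℕ) : ℕ :=
  sInf {x | ∃ (n : ℕ) (G : SimpleGraph (Fin n)),
    G.edgeFinset.card = m ∧ (∀ v, δ ≤ G.degree v) ∧ b G = x}

noncomputable def a (G : SimpleGraph (Fin n)) (u v : Fin n) : ℤ := if G.Adj u v then 1 else 0

noncomputable def E (G : SimpleGraph (Fin n)) (A B : Finset (Fin n)) : ℤ := ∑ u ∈ A, ∑ v ∈ B, a G u v

noncomputable def F (G : SimpleGraph (Fin n)) (A B : Finset (Fin n)) : ℤ :=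
  E G A A + E G B B - 2 * E G A B

variable {G : SimpleGraph (Fin n)}

lemma ch2 (k : ℕ) : 2 * (k.choose 2 : ℤ) = k * (k - 1) := by
  induction k with
  | zero => simp
  | succ k ih => rw [Nat.choose_succ_succ, Nat.choose_one_right]; push_cast; linarith

lemma E_symm (A B : Finset (Fin n)) : E G A B = E G B A := by
  rw [E, sum_comm]
  exact sum_congr rfl fun u _ => sum_congr rfl fun v _ => by simp [a, G.adj_comm]

lemma E_ins {u : Fin n} {A : Finset (Fin n)} (h : u ∉ A) (B : Finset (Fin n)) :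
    E G (insert u A) B = E G {u} B + E G A B := by simp [E, sum_insert h]

lemma E_ins' {u : Fin n} {A : Finset (Fin n)} (h : u ∉ A) (B : Finset (Fin n)) :
    E G B (insert u A) = E G {u} B + E G B A := by rw [E_symm, E_ins h, E_symm A]

lemma E_self (u : Fin n) : E G {u} {u} = 0 := by simp [E, a]

lemma E_univ : E G univ univ = 2 * G.edgeFinset.card := by
  have := G.two_mul_card_edgeFinset
  rw [card_filter, ← univ_product_univ, sum_product] at this
  simp only [E, a]
  exact_mod_cast this.symm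

lemma E_cut (S : Finset (Fin n)) : E G S Sᶜ = cut G S := by
  rw [cut, card_filter, sum_product]; simp [E, a]

lemma E_split (S : Finset (Fin n)) : E G univ univ = E G S S + E G Sᶜ Sᶜ + 2 * E G S Sᶜ := by
  have h : ∀ B, E G univ B = E G S B + E G Sᶜ B := fun B => (sum_add_sum_compl S _).symm
  rw [h, E_symm S, E_symm Sᶜ, h, h, E_symm Sᶜ S]; ring

lemma pair {A B : Finset (Fin n)} {u v : Fin n} (h1 : u ∉ A) (h2 : u ∉ B) (h3 : v ∉ A) (h4 : v ∉ B) :
    F G (insert u A) (insert v B) ≤ F G A B - 2 * a G u v ∨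
      F G (insert v A) (insert u B) ≤ F G A B - 2 * a G u v := by
  have e : E G {u} {v} = a G u v := by simp [E]
  have e' : E G {v} {u} = a G u v := by rw [E_symm, e]
  simp only [F, E_ins h1, E_ins h2, E_ins h3, E_ins h4, E_ins' h1, E_ins' h2, E_ins' h3, E_ins' h4,
    E_self, e, e']
  omega

lemma ext (k : ℕ) : ∀ A B : Finset (Fin n), Disjoint A B → A.card + B.card + k = n →
    (A.card = B.card ∨ (k % 2 = 0 ∧ B.card = A.card + 1)) →
    2 * (G.edgeFinset.card : ℤ) - 4 * b G ≤ F G A B := by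
  induction k using Nat.strong_induction_on with
  | _ k ih =>
  intro A B hd hk hc
  have cc : (A ∪ B)ᶜ.card = k := by
    rw [card_compl, card_union_of_disjoint hd, Fintype.card_fin]; omega
  rcases Nat.lt_or_ge 1 k with c | c
  · obtain ⟨u, hu, v, hv, uv⟩ := one_lt_card.1 (cc ▸ c)
    simp only [mem_compl, mem_union, not_or] at hu hv
    have a0 : 0 ≤ a G u v := by unfold a; split_ifs <;> simp
    rcases pair (G := G) hu.1 hu.2 hv.1 hv.2 with h | h
    · have := ih (k - 2) (by omega) (insert u A) (insert v B) (by simp [hd, hu, hv, uv, uv.symm])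
        (by rw [card_insert_of_notMem hu.1, card_insert_of_notMem hv.2]; omega)
        (by rw [card_insert_of_notMem hu.1, card_insert_of_notMem hv.2]; omega)
      omega
    · have := ih (k - 2) (by omega) (insert v A) (insert u B) (by simp [hd, hu, hv, uv, uv.symm])
        (by rw [card_insert_of_notMem hv.1, card_insert_of_notMem hu.2]; omega)
        (by rw [card_insert_of_notMem hv.1, card_insert_of_notMem hu.2]; omega)
      omega
  rcases Nat.lt_or_ge 0 k with c0 | c0
  · obtain ⟨u, hu⟩ := card_pos.1 (cc ▸ c0)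
    simp only [mem_compl, mem_union, not_or] at hu
    have h1 := ih 0 c0 B (insert u A) (by simp [hd.symm, hu])
      (by rw [card_insert_of_notMem hu.1]; omega) (by rw [card_insert_of_notMem hu.1]; omega)
    have h2 := ih 0 c0 A (insert u B) (by simp [hd, hu])
      (by rw [card_insert_of_notMem hu.2]; omega) (by rw [card_insert_of_notMem hu.2]; omega)
    simp only [F, E_ins hu.1, E_ins hu.2, E_ins' hu.1, E_ins' hu.2, E_self, E_symm B A] at h1 h2 ⊢
    omega
  · have e : B = Aᶜ := eq_of_subset_of_card_le (fun x hx => mem_compl.2 (disjoint_right.1 hd hx))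
      (by rw [card_compl, Fintype.card_fin]; omega)
    subst e
    have : cut G A ≤ b G := le_sup (f := cut G) (mem_filter.2 ⟨mem_univ _, by omega, by omega⟩)
    have h := E_split (G := G) A
    rw [E_univ] at h
    rw [F, E_cut] at *
    omega

lemma ext' {A B : Finset (Fin n)} (hd : Disjoint A B)
    (hc : A.card = B.card ∨ (n % 2 = 1 ∧ B.card = A.card + 1)) :
    2 * (G.edgeFinset.card : ℤ) - 4 * b G ≤ F G A B := by
  have := card_le_univ (A ∪ B)
  rw [card_union_of_disjoint hd, Fintype.card_fin] at this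
  exact ext (n - (A.card + B.card)) A B hd (by omega) (by omega)

lemma cover (t : ℕ) : (∃ A B : Finset (Fin n), Disjoint A B ∧ A.card = t ∧ B.card = t ∧
    F G A B ≤ -2 * t) ∨ ∃ C : Finset (Fin n), C.card ≤ 2 * t ∧ ∀ u v, G.Adj u v → u ∈ C ∨ v ∈ C := by
  induction t with
  | zero => exact Or.inl ⟨∅, ∅, by simp, rfl, rfl, by simp [F, E]⟩
  | succ t ih =>
    rcases ih with ⟨A, B, hd, h1, h2, h⟩ | ⟨C, h1, h2⟩
    · by_cases c : ∀ u v, G.Adj u v → u ∈ A ∪ B ∨ v ∈ A ∪ B
      · exact Or.inr ⟨A ∪ B, (card_union_le _ _).trans (by omega), c⟩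
      push Not at c
      obtain ⟨u, v, uv, hu, hv⟩ := c
      simp only [mem_union, not_or] at hu hv
      have a1 : a G u v = 1 := if_pos uv
      left
      rcases pair (G := G) hu.1 hu.2 hv.1 hv.2 with k | k
      · exact ⟨insert u A, insert v B, by simp [hd, hu, hv, uv.ne, uv.ne'],
          by rw [card_insert_of_notMem hu.1, h1], by rw [card_insert_of_notMem hv.2, h2],
          by push_cast; omega⟩
      · exact ⟨insert v A, insert u B, by simp [hd, hu, hv, uv.ne, uv.ne'],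
          by rw [card_insert_of_notMem hv.1, h1], by rw [card_insert_of_notMem hu.2, h2],
          by push_cast; omega⟩
    · exact Or.inr ⟨C, by omega, h2⟩

lemma row (u : Fin n) (A : Finset (Fin n)) : E G {u} A = (A.filter (fun v => G.Adj u v)).card := by
  simp [E, a]

lemma E_rows (A B : Finset (Fin n)) : E G A B = ∑ u ∈ A, E G {u} B := by simp [E]

lemma row_lt {u w : Fin n} {A : Finset (Fin n)} (hw : w ∈ A) (h : ¬ G.Adj u w) :
    E G {u} A ≤ A.card - 1 := by
  have : (A.filter (fun v => G.Adj u v)).card < A.card :=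
    card_lt_card (filter_ssubset.2 ⟨w, hw, h⟩)
  rw [row]; omega

lemma E_clique (A : Finset (Fin n)) : E G A A ≤ A.card * (A.card - 1) := by
  rw [E_rows]
  exact (sum_le_card_nsmul _ _ _ fun u hu => row_lt hu G.irrefl).trans (by simp)

lemma low (δ : ℕ) (hδ : 1 ≤ δ) : ∃ m0, ∀ (n : ℕ) (G : SimpleGraph (Fin n)), (∀ v, δ ≤ G.degree v) →
    m0 ≤ G.edgeFinset.card → G.edgeFinset.card + (δ + 1).choose 2 + 1 ≤ 2 * b G ∨
      (G.edgeFinset.card + (δ + 1).choose 2 ≤ 2 * b G ∧
        2 * δ ∣ G.edgeFinset.card + (δ + 1).choose 2) := by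
  set T := (δ + 1).choose 2 with hT
  have T2 : 2 * (T : ℤ) = (δ + 1) * δ := by rw [hT, ch2]; push_cast; ring
  refine ⟨2 * (T + 1) * (2 * (T + 1) + 2 ^ (2 * (T + 1)) * (2 * (T + 1) + 1)) + 1,
    fun n G hdeg hm => ?_⟩
  rcases cover (G := G) (T + 1) with ⟨A, B, hd, h1, h2, h⟩ | ⟨C, h1, h2⟩
  · have := ext' (G := G) hd (Or.inl (h1.trans h2.symm))
    push_cast at h
    omega
  have mC : G.edgeFinset.card ≤ C.card * n := by
    refine (card_le_card (t := C.biUnion (fun c => G.incidenceFinset c)) ?_).trans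
      (card_biUnion_le_card_mul _ _ _ fun c _ => ?_)
    · intro e he
      induction e using Sym2.ind with
      | _ u v =>
        have uv : G.Adj u v := by simpa using he
        rcases h2 u v uv with k | k
        · exact mem_biUnion.2 ⟨u, k, by simp [SimpleGraph.mem_incidenceFinset, uv]⟩
        · exact mem_biUnion.2 ⟨v, k, by simp [SimpleGraph.mem_incidenceFinset, SimpleGraph.incidenceSet, uv]⟩
    · rw [SimpleGraph.card_incidenceFinset_eq_degree]
      simpa using (G.degree_lt_card_verts c).le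
  have big : C.powerset.card * (2 * (T + 1) + 1) < Cᶜ.card := by
    rw [card_powerset, card_compl, Fintype.card_fin]
    have p := Nat.mul_le_mul_right (2 * (T + 1) + 1) (Nat.pow_le_pow_right (show 0 < 2 by norm_num) h1)
    have q : 2 * (T + 1) * (2 * (T + 1) + 2 ^ (2 * (T + 1)) * (2 * (T + 1) + 1)) < 2 * (T + 1) * n :=
      lt_of_lt_of_le (by omega) (Nat.mul_le_mul_right n h1)
    have := Nat.lt_of_mul_lt_mul_left q
    omega
  obtain ⟨A, hA, hW⟩ := exists_lt_card_fiber_of_mul_lt_card_of_maps_to (s := Cᶜ) (t := C.powerset)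
    (f := fun v => G.neighborFinset v) (fun v hv => mem_powerset.2 fun w hw =>
      (h2 v w (by simpa using hw)).resolve_left (mem_compl.1 hv)) big
  set W := Cᶜ.filter (fun v => G.neighborFinset v = A) with hWd
  have AC := mem_powerset.1 hA
  have Ac := (card_le_card AC).trans h1
  have wa : ∀ w ∈ W, ∀ x, G.Adj w x ↔ x ∈ A := fun w hw x => by
    rw [← (mem_filter.1 hw).2]; simp
  have wA : ∀ w ∈ W, w ∉ A := fun w hw k => mem_compl.1 (mem_filter.1 hw).1 (AC k)
  have dA : δ ≤ A.card := by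
    obtain ⟨w, hw⟩ := card_pos.1 (show 0 < W.card by omega)
    rw [← (mem_filter.1 hw).2]; exact hdeg w
  have calcB : ∀ B ⊆ W, E G B B = 0 ∧ E G A B = B.card * A.card ∧ Disjoint A B := by
    intro B hB
    refine ⟨sum_eq_zero fun u hu => sum_eq_zero fun v hv => if_neg fun k =>
      wA v (hB hv) ((wa u (hB hu) v).1 k), ?_, disjoint_right.2 fun x hx => wA x (hB hx)⟩
    rw [E_symm, E_rows, sum_congr rfl (g := fun _ => (A.card : ℤ))]
    · simp
    · intro u hu
      rw [row, filter_true_of_mem fun v hv => (wa u (hB hu) v).2 hv]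
  obtain ⟨B, hB, cB⟩ := exists_subset_card_eq (s := W) (n := A.card) (by omega)
  obtain ⟨B', hB', cB'⟩ := exists_subset_card_eq (s := W) (n := A.card + 1) (by omega)
  obtain ⟨e1, e2, e3⟩ := calcB B hB
  obtain ⟨f1, f2, f3⟩ := calcB B' hB'
  have cl := E_clique (G := G) A
  have dA' : (δ : ℤ) ≤ A.card := by exact_mod_cast dA
  have d0 : (0 : ℤ) ≤ δ := by positivity
  have x1 := ext' (G := G) e3 (Or.inl cB.symm)
  rw [F, e1, e2, cB] at x1
  have d1 : (1 : ℤ) ≤ δ := by exact_mod_cast hδ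
  suffices k : 2 * (G.edgeFinset.card : ℤ) - 4 * b G ≤ -((δ + 1) * δ) - 1 ∨
      (A.card = δ ∧ 2 * δ ∣ G.edgeFinset.card + T) by
    rcases k with k | ⟨k, k'⟩
    · left; omega
    · right
      rw [k] at x1 cl
      refine ⟨?_, k'⟩
      have : 2 * (G.edgeFinset.card : ℤ) - 4 * b G ≤ -((δ + 1) * δ) := by linarith
      omega
  rcases Nat.mod_two_eq_zero_or_one n with hn | hn
  swap
  · have x2 := ext' (G := G) f3 (Or.inr ⟨hn, cB'⟩)
    rw [F, f1, f2, cB'] at x2
    push_cast at x2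
    left; nlinarith
  rcases dA.lt_or_eq with c | c
  · have : (δ : ℤ) + 1 ≤ A.card := by exact_mod_cast c
    left; nlinarith
  by_cases c1 : ∃ v, v ∉ A ∧ ∃ u ∈ A, ¬ G.Adj v u
  · obtain ⟨v, hv, u, hu, k⟩ := c1
    have x2 := ext' (G := G) (A := insert v A) (B := B')
      (by simpa [f3] using fun h => k ((wa v (hB' h) u).2 hu))
      (Or.inl (by rw [card_insert_of_notMem hv, cB']))
    have r1 := row_lt hu k
    have r2 : 0 ≤ E G {v} B' := by rw [row]; positivity
    rw [F, f1, E_ins hv, E_ins hv, E_ins' hv, E_ins' hv, E_self, f2, cB', ← c] at x2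
    rw [← c] at cl r1
    push_cast at x2
    left; linarith
  by_cases c2 : ∃ u, u ∉ A ∧ ∃ v, v ∉ A ∧ G.Adj u v
  · obtain ⟨u, hu, v, hv, k⟩ := c2
    have uB : u ∉ B := fun h => hv ((wa u (hB h) v).1 k)
    have vB : v ∉ B := fun h => hu ((wa v (hB h) u).1 k.symm)
    have a1 : a G u v = 1 := if_pos k
    have x0 : F G A B ≤ -((δ + 1) * δ) := by
      rw [F, e1, e2, cB, ← c]; rw [← c] at cl; linarith
    left
    rcases pair (G := G) hu uB hv vB with h | h
    · have := ext' (G := G) (A := insert u A) (B := insert v B) (by simp [e3, uB, hv, k.ne'])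
        (Or.inl (by rw [card_insert_of_notMem hu, card_insert_of_notMem vB, cB]))
      linarith
    · have := ext' (G := G) (A := insert v A) (B := insert u B) (by simp [e3, vB, hu, k.ne])
        (Or.inl (by rw [card_insert_of_notMem hv, card_insert_of_notMem uB, cB]))
      linarith
  push Not at c1 c2
  by_cases c3 : ∃ u ∈ A, ∃ v ∈ A, v ≠ u ∧ ¬ G.Adj u v
  · obtain ⟨u, hu, v, hv, ne, k⟩ := c3
    have : E G A A < ∑ u ∈ A, ((A.card : ℤ) - 1) := by
      rw [E_rows]
      refine sum_lt_sum (fun w hw => row_lt hw G.irrefl) ⟨u, hu, ?_⟩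
      have := row_lt (mem_erase.2 ⟨ne, hv⟩) k
      rw [← insert_erase hu, E_ins' (notMem_erase u A), E_self,
        card_insert_of_notMem (notMem_erase u A)]
      push_cast; linarith
    rw [sum_const, nsmul_eq_mul, ← c] at this
    rw [← c] at x1
    left; linarith
  push Not at c3
  refine Or.inr ⟨c.symm, n / 2, ?_⟩
  have h := E_univ (G := G)
  rw [E_rows, ← sum_add_sum_compl A, sum_congr rfl (g := fun _ => (n : ℤ) - 1),
    sum_congr rfl (s₁ := Aᶜ) (g := fun _ => (δ : ℤ)), sum_const, sum_const, card_compl, Fintype.card_fin,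
    nsmul_eq_mul, nsmul_eq_mul, ← c, Nat.cast_sub (by simpa [c] using card_le_univ A)] at h
  · obtain ⟨p, rfl⟩ : ∃ p, n = 2 * p := ⟨n / 2, by omega⟩
    rw [Nat.mul_div_cancel_left p (by norm_num)]
    zify
    push_cast at h
    linarith
  · intro u hu
    rw [row, c]
    congr 2
    ext v
    simp only [mem_filter, mem_univ, true_and]
    exact ⟨fun k => by_contra fun q => c2 u (mem_compl.1 hu) v q k, c1 u (mem_compl.1 hu) v⟩
  · intro u hu
    rw [row, show univ.filter (fun v => G.Adj u v) = univ.erase u from ?_, card_erase_of_mem (mem_univ _),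
      card_univ, Fintype.card_fin, Nat.cast_sub u.pos]
    · rfl
    ext v
    simp only [mem_filter, mem_univ, true_and, mem_erase, and_true]
    refine ⟨fun k => k.ne', fun k => ?_⟩
    by_cases q : v ∈ A
    · exact c3 u hu v q k
    · exact (c1 v q u hu).symm

def base (A X : Finset (Fin n)) : SimpleGraph (Fin n) where
  Adj u v := u ≠ v ∧ ((u ∈ X ∧ v ∈ X) ∨ u ∈ A ∨ v ∈ A)
  symm := ⟨fun u v h => ⟨h.1.symm, by tauto⟩⟩
  loopless := ⟨fun v h => h.1 rfl⟩

lemma E_base {A X : Finset (Fin n)} (h : A ⊆ X) (S T : Finset (Fin n)) : E (base A X) S T =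
    (S ∩ X).card * (T ∩ X).card + (S ∩ A).card * (T \ X).card + (S \ X).card * (T ∩ A).card -
      ((S ∩ X) ∩ T).card := by
  have c1 : ∀ S X : Finset (Fin n), ((S ∩ X).card : ℤ) = ∑ u ∈ S, if u ∈ X then 1 else 0 := by
    intro S X; simp [filter_mem_eq_inter]
  have c2 : ∀ S X : Finset (Fin n), ((S \ X).card : ℤ) = ∑ u ∈ S, if u ∈ X then 0 else 1 := by
    intro S X; simp [sum_ite, sdiff_eq_filter]
  have c3 : (((S ∩ X) ∩ T).card : ℤ) = ∑ u ∈ S, ∑ v ∈ T, if u = v ∧ u ∈ X then 1 else 0 := by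
    rw [inter_assoc, c1]
    refine sum_congr rfl fun u _ => ?_
    by_cases k : u ∈ X <;> simp [k]
  rw [c3]
  simp only [c1, c2, sum_mul_sum, ← sum_add_distrib, ← sum_sub_distrib, E]
  refine sum_congr rfl fun u _ => sum_congr rfl fun v _ => ?_
  have := @h u
  have := @h v
  simp only [a, base]
  by_cases k : u = v
  · subst k; by_cases k : u ∈ X <;> by_cases k3 : u ∈ A <;> simp_all
  · by_cases k1 : u ∈ X <;> by_cases k2 : v ∈ X <;> by_cases k3 : u ∈ A <;> by_cases k4 : v ∈ A <;>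
      simp_all

lemma E_mono {G G' : SimpleGraph (Fin n)} (h : G ≤ G') (S T : Finset (Fin n)) : E G S T ≤ E G' S T :=
  sum_le_sum fun u _ => sum_le_sum fun v _ => by
    unfold a
    by_cases k : G.Adj u v
    · simp [k, h k]
    · simp only [k, if_false]; split_ifs <;> simp

lemma ec {G : SimpleGraph (Fin n)} {i : Fintype G.edgeSet} :
    (@SimpleGraph.edgeFinset _ G i).card = G.edgeSet.ncard := (Set.ncard_eq_toFinset_card' _).symm

lemma between {G1 G2 : SimpleGraph (Fin n)} (h : G1 ≤ G2) (m : ℕ) (h1 : G1.edgeFinset.card ≤ m)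
    (h2 : m ≤ G2.edgeFinset.card) : ∃ G : SimpleGraph (Fin n), G1 ≤ G ∧ G ≤ G2 ∧ G.edgeFinset.card = m := by
  obtain ⟨S, s1, s2, s3⟩ := exists_subsuperset_card_eq (SimpleGraph.edgeFinset_mono h) h1 h2
  have e : (SimpleGraph.fromEdgeSet (S : Set (Sym2 (Fin n)))).edgeSet = S := by
    rw [SimpleGraph.edgeSet_fromEdgeSet, sdiff_eq_left, Set.disjoint_left]
    intro x hx k
    exact G2.not_isDiag_of_mem_edgeSet (by simpa using s2 hx) k
  refine ⟨SimpleGraph.fromEdgeSet S, ?_, ?_, ?_⟩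
  · rw [← SimpleGraph.edgeSet_subset_edgeSet, e]
    exact fun x hx => s1 (by simpa using hx)
  · rw [← SimpleGraph.edgeSet_subset_edgeSet, e]
    exact fun x hx => by simpa using s2 hx
  · rw [ec, e, Set.ncard_coe_finset, s3]

lemma mindeg {p δ : ℕ} (G : SimpleGraph (Fin (2 * p))) (A : Finset (Fin (2 * p))) (hA : A.card = δ)
    (hp : δ ≤ p) (h : ∀ u ∈ A, ∀ v, v ∉ A → G.Adj u v) (v : Fin (2 * p)) : δ ≤ G.degree v := by
  by_cases k : v ∈ A
  · have : Aᶜ ⊆ G.neighborFinset v := fun w hw => by simpa using h v k w (mem_compl.1 hw)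
    have := card_le_card this
    rw [card_compl, Fintype.card_fin, hA] at this
    unfold SimpleGraph.degree; omega
  · exact hA ▸ card_le_card fun w hw => by simpa using (h w hw v k).symm

lemma up (δ k ρ j m p : ℕ) (hδ : 2 ≤ δ) (hk : k ≤ 2 * δ) (hρ : ρ ≤ 2 * δ) (hj : j ≤ 1)
    (hjρ : j = 0 ∨ ρ = 0) (hp : 3 * δ ≤ p)
    (hm : m + j + (δ + 1).choose 2 = 2 * δ * p + k.choose 2 + ρ) :
    ∃ (n : ℕ) (G : SimpleGraph (Fin n)), G.edgeFinset.card = m ∧ (∀ v, δ ≤ G.degree v) ∧
      2 * b G ≤ m + (δ + 1).choose 2 + k / 2 + ρ + j := by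
  obtain ⟨X, -, cX⟩ := exists_subset_card_eq (s := (univ : Finset (Fin (2 * p)))) (n := δ + k)
    (by simp; omega)
  obtain ⟨A, AX, cA⟩ := exists_subset_card_eq (s := X) (n := δ) (by omega)
  have T2 := ch2 (δ + 1)
  have K2 := ch2 k
  have m0 : ((base A X).edgeFinset.card : ℤ) + (δ + 1).choose 2 = 2 * δ * p + k.choose 2 := by
    have h := E_univ (G := base A X)
    rw [E_base AX] at h
    simp only [univ_inter, inter_univ, card_univ_sdiff, Fintype.card_fin, cX, cA] at h
    rw [Nat.cast_sub (by omega)] at h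
    push_cast at h T2
    linarith
  have hm' : (m : ℤ) + j + (δ + 1).choose 2 = 2 * δ * p + k.choose 2 + ρ := by exact_mod_cast hm
  have key : ∀ S : Finset (Fin (2 * p)), S.card ≤ Sᶜ.card → Sᶜ.card ≤ S.card + 1 →
      4 * E (base A X) S Sᶜ ≤ 4 * δ * p + k * k := by
    intro S s1 s2
    have c := card_add_card_compl S
    rw [Fintype.card_fin] at c
    have e1 := card_inter_add_card_sdiff S X
    have e2 := card_inter_add_card_sdiff Sᶜ X
    have e3 : ∀ Y : Finset (Fin (2 * p)), (S ∩ Y).card + (Sᶜ ∩ Y).card = Y.card := fun Y => by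
      rw [inter_comm S, inter_comm Sᶜ, ← sdiff_eq_inter_compl, card_inter_add_card_sdiff]
    have e4 := e3 X
    have e5 := e3 A
    rw [E_base AX, show S ∩ X ∩ Sᶜ = ∅ by ext x; simp; tauto, card_empty]
    have f1 : ((S \ X).card : ℤ) = p - (S ∩ X).card := by omega
    have f2 : ((Sᶜ \ X).card : ℤ) = p - (Sᶜ ∩ X).card := by omega
    have f3 : ((Sᶜ ∩ X).card : ℤ) = δ + k - (S ∩ X).card := by omega
    have f4 : ((Sᶜ ∩ A).card : ℤ) = δ - (S ∩ A).card := by omega
    have f5 : (0 : ℤ) ≤ (S ∩ A).card * (Sᶜ ∩ A).card := by positivity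
    rw [f1, f2, f3, f4]
    rw [f4] at f5
    nlinarith [sq_nonneg (2 * (((S ∩ X).card : ℤ) - (S ∩ A).card) - k)]
  have fin : ∀ G : SimpleGraph (Fin (2 * p)), (∀ S, E G S Sᶜ ≤ E (base A X) S Sᶜ + ρ) →
      2 * b G ≤ m + (δ + 1).choose 2 + k / 2 + ρ + j := by
    intro G h
    have : b G ≤ (m + (δ + 1).choose 2 + k / 2 + ρ + j) / 2 := by
      refine Finset.sup_le fun S hS => ?_
      have h1 := key S (mem_filter.1 hS).2.1 (mem_filter.1 hS).2.2
      have h2 := h S
      rw [E_cut] at h2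
      have : 4 * (cut G S : ℤ) ≤ 2 * m + 2 * (δ + 1).choose 2 + k + 2 * ρ + 2 * j := by linarith
      omega
    omega
  have ba : ∀ u ∈ A, ∀ v, v ∉ A → (base A X).Adj u v := fun u hu v hv =>
    ⟨fun e => hv (e ▸ hu), Or.inr (Or.inl hu)⟩
  rcases Nat.eq_zero_or_pos j with rfl | j0
  · obtain ⟨G, g1, -, g3⟩ := between (le_top (a := base A X)) m (by omega) (by
      have := SimpleGraph.card_edgeFinset_top_eq_card_choose_two (V := Fin (2 * p))
      have q := ch2 (2 * p)
      rw [Fintype.card_fin] at this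
      have z : (m : ℤ) ≤ (2 * p).choose 2 := by
        push_cast at q T2 hm'
        have h1 : (k : ℤ) ≤ 2 * δ := by exact_mod_cast hk
        have h2 : (ρ : ℤ) ≤ 2 * δ := by exact_mod_cast hρ
        have h3 : 3 * (δ : ℤ) ≤ p := by exact_mod_cast hp
        have h4 : (2 : ℤ) ≤ δ := by exact_mod_cast hδ
        have h5 : (0 : ℤ) ≤ k := by positivity
        nlinarith
      rw [ec] at this ⊢
      rw [this]
      exact_mod_cast z)
    refine ⟨_, G, g3, mindeg G A cA (by omega) fun u hu v hv => g1 (ba u hu v hv), fin G fun S => ?_⟩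
    have h1 := E_split (G := G) S
    have h2 := E_split (G := base A X) S
    rw [E_univ] at h1 h2
    have := E_mono g1 S S
    have := E_mono g1 Sᶜ Sᶜ
    rw [g3] at h1
    push_cast at hm'
    linarith
  · obtain ⟨u, hu, v, hv, uv⟩ := one_lt_card.1 (show 1 < A.card by omega)
    obtain ⟨G, g1, g2, g3⟩ := between ((base A X).deleteEdges_le {s(u, v)}) m (by
      have : ((base A X).deleteEdges {s(u, v)}).edgeFinset.card < (base A X).edgeFinset.card :=
        card_lt_card ⟨SimpleGraph.edgeFinset_mono ((base A X).deleteEdges_le _), fun h => by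
          have := @h s(u, v) (SimpleGraph.mem_edgeFinset.2
            (show (base A X).Adj u v from ⟨uv, Or.inr (Or.inl hu)⟩))
          simp at this⟩
      simp only [ec] at this m0 ⊢
      omega) (by omega)
    refine ⟨_, G, g3, mindeg G A cA (by omega) fun x hx y hy => g1 ?_, fin G fun S => ?_⟩
    · rw [SimpleGraph.deleteEdges_adj]
      refine ⟨ba x hx y hy, ?_⟩
      simp only [Set.mem_singleton_iff, Sym2.eq_iff]
      rintro (⟨-, rfl⟩ | ⟨-, rfl⟩)
      exacts [hy hv, hy hu]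
    · have := E_mono g2 S Sᶜ
      omega

lemma all (δ : ℕ) (hδ : 2 ≤ δ) : ∃ m0, ∀ m ≥ m0,
    (m + (δ + 1).choose 2 + 1 ≤ 2 * bmin δ m ∨
      (m + (δ + 1).choose 2 ≤ 2 * bmin δ m ∧ 2 * δ ∣ m + (δ + 1).choose 2)) ∧
    ∀ k ρ j p, k ≤ 2 * δ → ρ ≤ 2 * δ → j ≤ 1 → (j = 0 ∨ ρ = 0) →
      m + j + (δ + 1).choose 2 = 2 * δ * p + k.choose 2 + ρ →
      2 * bmin δ m ≤ m + (δ + 1).choose 2 + k / 2 + ρ + j := by
  obtain ⟨m0, h⟩ := low δ (by omega)
  have pl : ∀ m k ρ j p, 10 * (δ * δ) ≤ m → k ≤ 2 * δ → ρ ≤ 2 * δ →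
      m + j + (δ + 1).choose 2 = 2 * δ * p + k.choose 2 + ρ → 3 * δ ≤ p := by
    intro m k ρ j p h1 h2 h3 h4
    by_contra c
    have := Nat.choose_le_pow k 2
    nlinarith [Nat.mul_le_mul h2 h2, Nat.choose_two_right k, Nat.div_mul_le_self (k * (k - 1)) 2,
      Nat.mul_le_mul_left k (Nat.sub_le k 1), Nat.mul_le_mul_left (2 * δ) (not_le.1 c).le]
  refine ⟨m0 + 10 * (δ * δ), fun m hm => ⟨?_, fun k ρ j p h1 h2 h3 h4 h5 => ?_⟩⟩
  · have e := (Nat.div_add_mod (m + (δ + 1).choose 2) (2 * δ)).symm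
    have l := (Nat.mod_lt (m + (δ + 1).choose 2) (show 0 < 2 * δ by omega)).le
    obtain ⟨n, G, g1, g2, -⟩ := up δ 0 _ 0 m _ hδ (by omega) l (by omega) (Or.inl rfl)
      (pl m 0 _ 0 _ (by omega) (by omega) l (by simpa using e)) (by simpa using e)
    obtain ⟨n', G', k1, k2, k3⟩ := Nat.sInf_mem (s := {x | ∃ (n : ℕ) (G : SimpleGraph (Fin n)),
      G.edgeFinset.card = m ∧ (∀ v, δ ≤ G.degree v) ∧ b G = x}) ⟨_, n, G, g1, g2, rfl⟩
    have := h n' G' k2 (by omega)
    rwa [k1, k3] at this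
  · obtain ⟨n, G, g1, g2, g3⟩ := up δ k ρ j m p hδ h1 h2 h3 h4 (pl m k ρ j p (by omega) h1 h2 h5) h5
    have : bmin δ m ≤ b G := Nat.sInf_le ⟨n, G, g1, g2, rfl⟩
    omega

lemma all_parts :
    (∀ δ ≥ 2, ∃ m0, ∀ m ≥ m0, m + (δ + 1).choose 2 ≤ 2 * bmin δ m ∧
      (2 * bmin δ m = m + (δ + 1).choose 2 ↔ 2 * δ ∣ m + (δ + 1).choose 2) ∧
      2 * bmin δ m ≤ m + (δ + 1).choose 2 + 3 * (Nat.sqrt δ + 1)) ∧
    (∃ m0, ∀ m ≥ m0, 2 * bmin 2 m = m + if m % 4 = 1 then 3 else if m % 4 = 3 then 5 else 4) ∧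
    (∃ m0, ∀ m ≥ m0, 2 * bmin 3 m = m + if m % 6 = 0 then 6 else if m % 2 = 1 then 7 else 8) := by
  refine ⟨fun δ hδ => ?_, ?_, ?_⟩
  · obtain ⟨m0, h⟩ := all δ hδ
    refine ⟨m0, fun m hm => ?_⟩
    obtain ⟨h1, h2⟩ := h m hm
    refine ⟨by omega, ⟨fun e => (h1.resolve_left (by omega)).2, fun ⟨p, e⟩ => ?_⟩, ?_⟩
    · have := h2 0 0 0 p (by omega) (by omega) (by omega) (Or.inl rfl) (by simpa using e)
      omega
    · have e := (Nat.div_add_mod (m + (δ + 1).choose 2) (2 * δ)).symm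
      have l := Nat.mod_lt (m + (δ + 1).choose 2) (show 0 < 2 * δ by omega)
      generalize (m + (δ + 1).choose 2) % (2 * δ) = r at e l
      have ex : ∃ k, r < (k + 1).choose 2 := ⟨r + 1, by
        rw [Nat.choose_succ_succ, Nat.choose_one_right]; omega⟩
      obtain ⟨k, k1, k2⟩ : ∃ k, r < (k + 1).choose 2 ∧ k.choose 2 ≤ r := by
        refine ⟨Nat.find ex, Nat.find_spec ex, ?_⟩
        rcases hf : Nat.find ex with _ | i
        · simp
        · exact not_lt.1 (Nat.find_min ex (by omega : i < Nat.find ex))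
      rw [Nat.choose_succ_succ, Nat.choose_one_right] at k1
      have q := ch2 k
      have s := Nat.lt_succ_sqrt δ
      have kk : k ≤ 2 * Nat.sqrt δ + 2 := by
        by_contra c
        have c' : 2 * (Nat.sqrt δ : ℤ) + 3 ≤ k := by omega
        have s' : (δ : ℤ) < (Nat.sqrt δ + 1) * (Nat.sqrt δ + 1) := by exact_mod_cast s
        have : (k.choose 2 : ℤ) < 2 * δ := by exact_mod_cast k2.trans_lt l
        nlinarith
      have kd : k ≤ 2 * δ := by
        by_contra c
        have c' : 2 * (δ : ℤ) + 1 ≤ k := by omega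
        have : (k.choose 2 : ℤ) < 2 * δ := by exact_mod_cast k2.trans_lt l
        have : (2 : ℤ) ≤ δ := by exact_mod_cast hδ
        nlinarith
      have := h2 k (r - k.choose 2) 0 ((m + (δ + 1).choose 2) / (2 * δ)) kd (by omega) (by omega)
        (Or.inl rfl) (by omega)
      simp only [Nat.succ_eq_add_one, Nat.reduceAdd] at k1
      omega
  · obtain ⟨m0, h⟩ := all 2 le_rfl
    refine ⟨m0, fun m hm => ?_⟩
    obtain ⟨h1, h2⟩ := h m hm
    have a0 := h2 0 ((m + 3) % 4) 0 ((m + 3) / 4) (by omega) (by omega) (by omega) (Or.inl rfl)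
    have a1 := h2 3 0 0 (m / 4) (by omega) (by omega) (by omega) (Or.inl rfl)
    norm_num [Nat.choose] at h1 a0 a1
    split_ifs <;> omega
  · obtain ⟨m0, h⟩ := all 3 (by norm_num)
    refine ⟨m0, fun m hm => ?_⟩
    obtain ⟨h1, h2⟩ := h m hm
    have a0 := h2 0 (m % 6) 0 (m / 6 + 1) (by omega) (by omega) (by omega) (Or.inl rfl)
    have a1 := h2 3 (m % 6 - 3) 0 (m / 6 + 1) (by omega) (by omega) (by omega) (Or.inl rfl)
    have a2 := h2 0 0 1 (m / 6 + 2) (by omega) (by omega) (by omega) (Or.inr rfl)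
    norm_num [Nat.choose] at h1 a0 a1 a2
    split_ifs <;> omega

theorem result : ∀ δ ≥ 2, ∃ m0, ∀ m ≥ m0, m + (δ + 1).choose 2 ≤ 2 * bmin δ m ∧
    (2 * bmin δ m = m + (δ + 1).choose 2 ↔ 2 * δ ∣ m + (δ + 1).choose 2) ∧
    2 * bmin δ m ≤ m + (δ + 1).choose 2 + 3 * (Nat.sqrt δ + 1) :=
  all_parts.1

end Pool.Agent.Results.MP_5de61a_co.Bisection
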