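import Mathlib
import Pool.Agent.Results.MP_5de61a_co.Bisection

namespace Pool.Agent.Results.MP_5de61a_co.DeltaThree

open Pool.Agent.Results.MP_5de61a_co.Bisection

theorem result :
    ∃ m0, ∀ m ≥ m0, 2 * bmin 3 m = m + if m % 6 = 0 then 6 else if m % 2 = 1 then 7 else 8 :=
  all_parts.2.2

end Pool.Agent.Results.MP_5de61a_co.DeltaThree
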