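import Mathlib
import Pool.Agent.Results.MP_5de61a_co.Bisection

namespace Pool.Agent.Results.MP_5de61a_co.DeltaTwo

open Pool.Agent.Results.MP_5de61a_co.Bisection

theorem result :
    ∃ m0, ∀ m ≥ m0, 2 * bmin 2 m = m + if m % 4 = 1 then 3 else if m % 4 = 3 then 5 else 4 :=
  all_parts.2.1

end Pool.Agent.Results.MP_5de61a_co.DeltaTwo
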